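import Mathlib

/-! Every nontrivial element of a free group of rank at least two is the automorphic image of an
element of a certain finitely generated subsemigroup. -/

namespace Q27.AutDense

open FreeGroup

variable {k : ℕ}

/-- the free group of rank `k + 2` -/
abbrev F (k : ℕ) := FreeGroup (Fin (k + 2))

/-- the letters -/
abbrev Lt (k : ℕ) := Fin (k + 2) × Bool

/-- the element given by a letter -/
def lett (a : Lt k) : F k := if a.2 then of a.1 else (of a.1)⁻¹

/-- the inverse letter -/
def bar (a : Lt k) : Lt k := (a.1, !a.2)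

@[simp] theorem bar_bar (a : Lt k) : bar (bar a) = a := by
  simp [bar]

@[simp] theorem bar_fst (a : Lt k) : (bar a).1 = a.1 := rfl

theorem lett_bar (a : Lt k) : lett (bar a) = (lett a)⁻¹ := by
  obtain ⟨i, s⟩ := a
  cases s <;> simp [lett, bar]

/-- first generator -/
def X : F k := of 0

/-- second generator -/
def Y : F k := of 1

/-- the element given by a list of blocks -/
def val (c : List (Lt k × ℤ)) : F k := (c.map fun p => lett p.1 * X ^ p.2).prod

@[simp] theorem val_nil : val ([] : List (Lt k × ℤ)) = 1 := rfl

@[simp] theorem val_cons (p : Lt k × ℤ) (c : List (Lt k × ℤ)) :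
    val (p :: c) = lett p.1 * X ^ p.2 * val c := by simp [val]

@[simp] theorem val_append (c d : List (Lt k × ℤ)) : val (c ++ d) = val c * val d := by
  simp [val]

/-- all block letters are different from the first generator -/
def Ok (c : List (Lt k × ℤ)) : Prop := ∀ p ∈ c, p.1.1 ≠ 0

theorem exists_blocks (w : F k) : ∃ (e : ℤ) (c : List (Lt k × ℤ)), Ok c ∧ w = X ^ e * val c := by
  induction w using FreeGroup.induction_on with
  | C1 => exact ⟨0, [], by simp [Ok], by simp⟩
  | of i => 
    by_cases hi : i = 0
    · subst hi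
      exact ⟨1, [], by simp [Ok], by simp [X]⟩
    · exact ⟨0, [((i, true), 0)], by simpa [Ok] using hi, by simp [lett]⟩
  | inv_of i _ =>
    by_cases hi : i = 0
    · subst hi
      exact ⟨-1, [], by simp [Ok], by simp [X]⟩
    · exact ⟨0, [((i, false), 0)], by simpa [Ok] using hi, by simp [lett]⟩
  | mul x y hx hy =>
    obtain ⟨e, c, hc, rfl⟩ := hx
    obtain ⟨f, d, hd, rfl⟩ := hy
    rcases List.eq_nil_or_concat c with rfl | ⟨c', p, rfl⟩
    · exact ⟨e + f, d, hd, by simp [zpow_add, mul_assoc]⟩
    · refine ⟨e, c' ++ [(p.1, p.2 + f)] ++ d, ?_, ?_⟩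
      · intro q hq
        simp only [List.mem_append, List.mem_singleton] at hq
        rcases hq with (hq | hq) | hq
        · exact hc q (by simp [hq])
        · subst hq
          exact hc p (by simp)
        · exact hd q hq
      · simp [zpow_add, mul_assoc]

theorem isConj_swap (a b : F k) : IsConj (a * b) (b * a) := by
  rw [isConj_iff]
  exact ⟨b, by group⟩

theorem move_last (f : ℤ) (c : List (Lt k × ℤ)) (hc : Ok c) (hne : c ≠ []) :
    ∃ d : List (Lt k × ℤ), Ok d ∧ d.length = c.length ∧ IsConj (X ^ f * val c) (val d) := by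
  rcases List.eq_nil_or_concat c with rfl | ⟨c', p, rfl⟩
  · exact absurd rfl hne
  · refine ⟨c' ++ [(p.1, p.2 + f)], ?_, by simp, ?_⟩
    · intro q hq
      simp only [List.mem_append, List.mem_singleton] at hq
      rcases hq with hq | hq
      · exact hc q (by simp [hq])
      · subst hq
        exact hc p (by simp)
    · have := isConj_swap (X ^ f) (val (c'.concat p))
      convert this using 1
      simp [zpow_add, mul_assoc]

/-- a block list is reduced at its first junction -/
theorem exists_min (w : F k) (hw : ∀ e : ℤ, ¬ IsConj w (X ^ e)) :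
    ∃ c : List (Lt k × ℤ), Ok c ∧ c ≠ [] ∧ IsConj w (val c) ∧
      ∀ (p q : Lt k × ℤ) (l : List (Lt k × ℤ)), Ok (p :: q :: l) →
        (p :: q :: l).length = c.length →
        IsConj w (val (p :: q :: l)) → ¬ (p.2 = 0 ∧ q.1 = bar p.1) := by
  classical
  have hex : ∃ n, ∃ c : List (Lt k × ℤ), c.length = n ∧ Ok c ∧ c ≠ [] ∧ IsConj w (val c) := by
    obtain ⟨e, c, hc, hwc⟩ := exists_blocks w
    have hne : c ≠ [] := by
      rintro rfl
      apply hw e
      rw [hwc, val_nil, mul_one]
    obtain ⟨d, hd, hlen, hconj⟩ := move_last e c hc hne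
    refine ⟨_, d, rfl, hd, ?_, ?_⟩
    · rintro rfl
      simp at hlen
      exact hne (List.length_eq_zero_iff.1 hlen.symm)
    · rw [hwc]
      exact hconj
  obtain ⟨c, hlen, hc, hne, hconj⟩ := Nat.find_spec hex
  refine ⟨c, hc, hne, hconj, ?_⟩
  rintro p q l hok hl hcj ⟨h1, h2⟩
  have hval : val (p :: q :: l) = X ^ q.2 * val l := by
    simp only [val_cons, h1, h2, lett_bar]
    group
  rw [hval] at hcj
  by_cases hl0 : l = []
  · subst hl0
    apply hw q.2
    simpa using hcj
  · obtain ⟨d, hd, hdl, hdc⟩ := move_last q.2 l (fun r hr => hok r (by simp [hr])) hl0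
    have hmin : ¬ ∃ c : List (Lt k × ℤ), c.length = d.length ∧ Ok c ∧ c ≠ [] ∧
        IsConj w (val c) := by
      apply Nat.find_min hex
      rw [← hlen, ← hl, hdl]
      simp only [List.length_cons]
      omega
    apply hmin
    refine ⟨d, rfl, hd, ?_, hcj.trans hdc⟩
    rintro rfl
    simp at hdl
    exact hl0 (List.length_eq_zero_iff.1 hdl.symm)

/-- cyclically consecutive pairs -/
def cp {α : Type*} (c : List α) : List (α × α) := c.zip (c.rotate 1)

theorem mem_zip_consec {α : Type*} (x : α) (xs : List α) (y : α) (p q : α)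
    (h : (p, q) ∈ (x :: xs).zip (xs ++ [y])) : ∃ l₁ l₂, x :: xs ++ [y] = l₁ ++ p :: q :: l₂ := by
  induction xs generalizing x with
  | nil =>
    simp at h
    obtain ⟨rfl, rfl⟩ := h
    exact ⟨[], [], rfl⟩
  | cons z zs ih =>
    simp only [List.cons_append, List.zip_cons_cons, List.mem_cons, Prod.mk.injEq] at h
    rcases h with ⟨rfl, rfl⟩ | h
    · exact ⟨[], zs ++ [y], rfl⟩
    · obtain ⟨l₁, l₂, hl⟩ := ih z h
      exact ⟨x :: l₁, l₂, by rw [List.cons_append, List.cons_append] at *; simp [hl]⟩

theorem cp_nondeg (w : F k) (c : List (Lt k × ℤ)) (hc : Ok c) (hconj : IsConj w (val c))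
    (hmin : ∀ (p q : Lt k × ℤ) (l : List (Lt k × ℤ)), Ok (p :: q :: l) →
        (p :: q :: l).length = c.length →
        IsConj w (val (p :: q :: l)) → ¬ (p.2 = 0 ∧ q.1 = bar p.1)) :
    ∀ pq ∈ cp c, ¬ (pq.1.2 = 0 ∧ pq.2.1 = bar pq.1.1) := by
  rintro ⟨p, q⟩ hpq
  cases c with
  | nil => simp [cp] at hpq
  | cons x xs =>
    have h1 : (p, q) ∈ (x :: xs).zip (xs ++ [x]) := by simpa [cp] using hpq
    obtain ⟨l₁, l₂, hl⟩ := mem_zip_consec x xs x p q h1
    rcases List.eq_nil_or_concat l₂ with rfl | ⟨l₂', z, rfl⟩
    · -- q = x, p is the last one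
      cases l₁ with
      | nil =>
        simp at hl
        obtain ⟨rfl, hxs⟩ := hl
        cases xs with
        | nil =>
          simp at hxs
          subst hxs
          rintro ⟨_, h⟩
          have h' : x.1.2 = !x.1.2 := congrArg Prod.snd h
          revert h'
          cases x.1.2 <;> simp
        | cons y ys => simp at hxs
      | cons z l₁' =>
        have hxz : x = z := by simp at hl; exact hl.1
        subst hxz
        have hxs : xs ++ [x] = l₁' ++ [p] ++ [q] := by simp at hl; simp [hl]
        obtain ⟨hxs1, hxs2⟩ := List.append_inj' hxs rfl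
        simp at hxs2
        subst hxs2
        subst hxs1
        refine hmin p x l₁' ?_ (by simp) ?_
        · intro r hr
          apply hc
          simp at hr ⊢
          tauto
        · refine hconj.trans ?_
          have := isConj_swap (val (x :: l₁')) (val [p])
          convert this using 1
          · simp [mul_assoc]
          · simp [mul_assoc]
    · have hl' : x :: xs ++ [x] = (l₁ ++ p :: q :: l₂') ++ [z] := by simpa using hl
      obtain ⟨h3, h4⟩ := List.append_inj' hl' rfl
      rw [h3] at hc hmin hconj
      refine hmin p q (l₂' ++ l₁) ?_ ?_ ?_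
      · intro r hr
        apply hc
        simp at hr ⊢
        tauto
      · simp
        omega
      · refine hconj.trans ?_
        have := isConj_swap (val l₁) (val (p :: q :: l₂'))
        convert this using 1
        · simp [mul_assoc]
        · simp [mul_assoc]

theorem prod_zip_aux {α : Type*} (u v : α → F k) (x : α) (xs : List α) (y : α) :
    (((x :: xs).zip (xs ++ [y])).map fun pq => v pq.1 * u pq.2).prod =
      v x * (xs.map fun a => u a * v a).prod * u y := by
  induction xs generalizing x with
  | nil => simp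
  | cons z zs ih =>
    rw [List.cons_append, List.zip_cons_cons, List.map_cons, List.prod_cons, ih]
    simp [mul_assoc]

/-- a product of products regrouped cyclically -/
theorem prod_regroup {α : Type*} (u v : α → F k) (c : List α) :
    IsConj ((c.map fun a => u a * v a).prod) (((cp c).map fun pq => v pq.1 * u pq.2).prod) := by
  cases c with
  | nil => simp [cp]
  | cons x xs =>
    have h1 : cp (x :: xs) = (x :: xs).zip (xs ++ [x]) := by simp [cp]
    rw [h1, prod_zip_aux, List.map_cons, List.prod_cons]
    have := isConj_swap (u x) (v x * (xs.map fun a => u a * v a).prod)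
    convert this using 1
    simp [mul_assoc]

end Q27.AutDense
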