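import Pool.Agent.Q27.AutDense.Alg

/-! The automorphisms and the subsemigroup. -/

namespace Q27.AutDense

open FreeGroup (of lift lift_apply_of norm norm_of norm_inv_eq norm_of_pow norm_mul_le)

variable {k : ℕ}

/-- images of the generators under the first automorphism -/
def f1 (Q : Lt k → ℤ) (i : Fin (k + 2)) : F k :=
  if i = 0 then X else X ^ (-Q (i, false)) * of i * X ^ (Q (i, true))

/-- images of the generators under the inverse of the first automorphism -/
def g1 (Q : Lt k → ℤ) (i : Fin (k + 2)) : F k :=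
  if i = 0 then X else X ^ (Q (i, false)) * of i * X ^ (-Q (i, true))

theorem f1_X (Q : Lt k → ℤ) : lift (f1 Q) X = X := by simp [X, f1]

theorem g1_X (Q : Lt k → ℤ) : lift (g1 Q) X = X := by simp [X, g1]

/-- the first automorphism -/
def phi1 (Q : Lt k → ℤ) : F k ≃* F k :=
  MonoidHom.toMulEquiv (lift (f1 Q)) (lift (g1 Q))
    (by
      ext i
      by_cases hi : i = 0
      · subst hi
        simp [f1, X, g1]
      · simp only [MonoidHom.comp_apply, lift_apply_of, MonoidHom.id_apply]
        rw [f1, if_neg hi]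
        simp only [map_mul, map_zpow, g1_X, lift_apply_of]
        rw [g1, if_neg hi]
        group)
    (by
      ext i
      by_cases hi : i = 0
      · subst hi
        simp [g1, X, f1]
      · simp only [MonoidHom.comp_apply, lift_apply_of, MonoidHom.id_apply]
        rw [g1, if_neg hi]
        simp only [map_mul, map_zpow, f1_X, lift_apply_of]
        rw [f1, if_neg hi]
        group)

theorem phi1_X (Q : Lt k → ℤ) : phi1 Q X = X := f1_X Q

theorem phi1_lett (Q : Lt k → ℤ) (a : Lt k) (ha : a.1 ≠ 0) :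
    phi1 Q (lett a) = X ^ (-Q (bar a)) * lett a * X ^ (Q a) := by
  obtain ⟨i, s⟩ := a
  have h : phi1 Q (of i) = X ^ (-Q (i, false)) * of i * X ^ (Q (i, true)) := by
    change lift (f1 Q) (of i) = _
    rw [lift_apply_of, f1, if_neg ha]
  cases s
  · simp only [lett, bar, Bool.not_false, Bool.false_eq_true, if_false, map_inv, h]
    group
  · simpa [lett, bar] using h

/-- images of the generators under the second automorphism -/
def f2 (e : ℤ) (i : Fin (k + 2)) : F k := if i = 0 then X * Y ^ e else of i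

theorem one_ne_zero' : (1 : Fin (k + 2)) ≠ 0 := by simp

theorem f2_Y (e : ℤ) : lift (f2 e) (Y : F k) = Y := by
  simp [Y, f2]

theorem f2_X (e : ℤ) : lift (f2 e) (X : F k) = X * Y ^ e := by
  simp [X, f2]

/-- the second automorphism -/
def phi2 : F k ≃* F k :=
  MonoidHom.toMulEquiv (lift (f2 2)) (lift (f2 (-2)))
    (by
      ext i
      by_cases hi : i = 0
      · subst hi
        change lift (f2 (-2)) (lift (f2 2) X) = X
        rw [f2_X, map_mul, map_zpow, f2_X, f2_Y]
        group
      · simp [f2, hi])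
    (by
      ext i
      by_cases hi : i = 0
      · subst hi
        change lift (f2 2) (lift (f2 (-2)) X) = X
        rw [f2_X, map_mul, map_zpow, f2_X, f2_Y]
        group
      · simp [f2, hi])

theorem phi2_X : phi2 (X : F k) = X * Y ^ (2 : ℤ) := f2_X 2

theorem phi2_Y : phi2 (Y : F k) = Y := f2_Y 2

theorem phi2_lett (a : Lt k) (ha : a.1 ≠ 0) : phi2 (lett a) = lett a := by
  obtain ⟨i, s⟩ := a
  have h : phi2 (of i : F k) = of i := by
    change lift (f2 2) (of i) = _
    rw [lift_apply_of, f2, if_neg ha]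
  cases s <;> simp [lett, h]

/-- the subgroup generated by the generators other than the first -/
def P (k : ℕ) : Subgroup (F k) := Subgroup.closure {g | ∃ i : Fin (k + 2), i ≠ 0 ∧ g = of i}

/-- the finite set generating the subsemigroup -/
def T (k : ℕ) : Set (F k) :=
  {g | ∃ (d : ℤ) (u : F k), (d = 1 ∨ d = -1) ∧ u ∈ P k ∧ u ≠ 1 ∧ u.norm ≤ 5 ∧ g = X ^ d * u}

/-- the subsemigroup -/
def M (k : ℕ) : Subsemigroup (F k) := Subsemigroup.closure (T k)

theorem Y_mem : (Y : F k) ∈ P k := Subgroup.subset_closure ⟨1, by simp, rfl⟩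

theorem lett_mem (a : Lt k) (ha : a.1 ≠ 0) : lett a ∈ P k := by
  have : (of a.1 : F k) ∈ P k := Subgroup.subset_closure ⟨a.1, ha, rfl⟩
  unfold lett
  split
  · exact this
  · exact inv_mem this

theorem norm_lett (a : Lt k) : norm (lett a) = 1 := by
  unfold lett
  split
  · exact norm_of _
  · rw [norm_inv_eq]; exact norm_of _

theorem norm_Y2 : norm ((Y : F k) ^ (2 : ℤ)) = 2 := by
  have : (Y : F k) ^ (2 : ℤ) = of 1 ^ 2 := rfl
  rw [this, norm_of_pow]

theorem norm_Y2' : norm ((Y : F k) ^ (-2 : ℤ)) = 2 := by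
  rw [zpow_neg, norm_inv_eq, norm_Y2]

/-- parity of the exponent of a generator -/
def par (i : Fin (k + 2)) : F k →* Multiplicative (ZMod 2) :=
  lift fun j => Multiplicative.ofAdd (if j = i then 1 else 0)

theorem par_sq (i : Fin (k + 2)) (g : F k) (e : ℤ) : par i (g ^ (2 * e)) = 1 := by
  rw [zpow_mul, map_zpow]
  have : par i (g ^ (2 : ℤ)) = 1 := by
    rw [map_zpow]
    generalize par i g = z
    revert z
    decide
  rw [this, one_zpow]

theorem par_lett (a : Lt k) : par a.1 (lett a) ≠ 1 := by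
  obtain ⟨i, s⟩ := a
  have h : par i (of i) = Multiplicative.ofAdd (1 : ZMod 2) := by simp [par]
  cases s
  · simp only [lett, Bool.false_eq_true, if_false, map_inv, h]
    decide
  · simp only [lett, if_true, h]
    decide

theorem mem_U (a : Lt k) (ha : a.1 ≠ 0) (r l : F k) (hr : r = 1 ∨ r = Y ^ (2 : ℤ))
    (hl : l = 1 ∨ l = Y ^ (-2 : ℤ)) :
    r * lett a * l ∈ P k ∧ r * lett a * l ≠ 1 ∧ (r * lett a * l).norm ≤ 5 := by
  refine ⟨?_, ?_, ?_⟩
  · refine mul_mem (mul_mem ?_ (lett_mem a ha)) ?_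
    · rcases hr with rfl | rfl
      · exact one_mem _
      · exact zpow_mem Y_mem _
    · rcases hl with rfl | rfl
      · exact one_mem _
      · exact zpow_mem Y_mem _
  · intro h
    have h1 := congrArg (par a.1) h
    rw [map_mul, map_mul, map_one] at h1
    have h2 : par a.1 r = 1 := by
      rcases hr with rfl | rfl
      · exact map_one _
      · exact par_sq _ _ 1
    have h3 : par a.1 l = 1 := by
      rcases hl with rfl | rfl
      · exact map_one _
      · exact par_sq _ _ (-1)
    rw [h2, h3, one_mul, mul_one] at h1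
    exact par_lett a h1
  · have h1 := norm_mul_le (r * lett a) l
    have h2 := norm_mul_le r (lett a)
    have h3 : norm r ≤ 2 := by
      rcases hr with rfl | rfl
      · simp
      · exact norm_Y2.le
    have h4 : norm l ≤ 2 := by
      rcases hl with rfl | rfl
      · simp
      · exact norm_Y2'.le
    rw [norm_lett] at h2
    omega

/-- sign -/
def sg (n : ℤ) : ℤ := if 0 < n then 1 else -1

/-- left part -/
def Lf (n : ℤ) : F k := if 0 < n then 1 else Y ^ (-2 : ℤ)

/-- right part -/
def Rf (n : ℤ) : F k := if 0 < n then Y ^ (2 : ℤ) else 1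

/-- middle part -/
def Mid (n : ℤ) : F k := (X ^ sg n * Y ^ (2 * sg n)) ^ (n.natAbs - 1) * X ^ sg n

theorem pow_split (n : ℤ) (hn : n ≠ 0) :
    (X * Y ^ (2 : ℤ) : F k) ^ n = Lf n * (Mid n * Rf n) := by
  rcases lt_or_gt_of_ne hn with h | h
  · obtain ⟨m, rfl⟩ : ∃ m : ℕ, n = -(m + 1 : ℤ) := ⟨(-n - 1).toNat, by omega⟩
    have h1 : ¬ (0 < -(m + 1 : ℤ)) := by omega
    have h2 : (-(m + 1 : ℤ)).natAbs - 1 = m := by omega
    simp only [Lf, Mid, Rf, sg, if_neg h1, h2, mul_one]
    have h3 : ∀ j : ℕ, (X * Y ^ (2 : ℤ) : F k) ^ (-(j + 1 : ℤ)) =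
        Y ^ (-2 : ℤ) * ((X ^ (-1 : ℤ) * Y ^ (2 * (-1) : ℤ)) ^ j * X ^ (-1 : ℤ)) := by
      intro j
      induction j with
      | zero => simp
      | succ j ih =>
        have : (-((j + 1 : ℕ) + 1 : ℤ)) = -(j + 1 : ℤ) + (-1) := by push_cast; ring
        rw [this, zpow_add, ih, pow_succ]
        simp [mul_assoc]
    exact h3 m
  · obtain ⟨m, rfl⟩ : ∃ m : ℕ, n = (m + 1 : ℤ) := ⟨(n - 1).toNat, by omega⟩
    have h2 : ((m + 1 : ℤ)).natAbs - 1 = m := by omega
    simp only [Lf, Mid, Rf, sg, if_pos h, h2, one_mul, mul_one, zpow_one]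
    have : (X * Y ^ (2 : ℤ) : F k) ^ (m + 1 : ℤ) = (X * Y ^ (2 : ℤ)) ^ (m + 1) := by
      norm_cast
    rw [this, pow_succ]
    simp [mul_assoc]

theorem norm_Ysg (n : ℤ) : norm ((Y : F k) ^ (2 * sg n)) = 2 := by
  unfold sg
  split
  · exact norm_Y2
  · exact norm_Y2'

theorem X_Y_mem_T (n : ℤ) : (X ^ sg n * Y ^ (2 * sg n) : F k) ∈ T k := by
  refine ⟨sg n, Y ^ (2 * sg n), ?_, zpow_mem Y_mem _, ?_, ?_, rfl⟩
  · unfold sg
    split <;> simp
  · intro h
    have h1 := norm_Ysg (k := k) n
    rw [h, FreeGroup.norm_one] at h1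
    omega
  · rw [norm_Ysg]
    omega

theorem mid_mul_mem (n : ℤ) (u : F k) (hu : X ^ sg n * u ∈ T k) : Mid n * u ∈ M k := by
  unfold Mid
  have h : ∀ j : ℕ, (X ^ sg n * Y ^ (2 * sg n)) ^ j * X ^ sg n * u ∈ M k := by
    intro j
    induction j with
    | zero =>
      rw [pow_zero, one_mul]
      exact Subsemigroup.subset_closure hu
    | succ j ih =>
      rw [pow_succ']
      have : X ^ sg n * Y ^ (2 * sg n) * (X ^ sg n * Y ^ (2 * sg n)) ^ j * X ^ sg n * u =
        (X ^ sg n * Y ^ (2 * sg n)) * ((X ^ sg n * Y ^ (2 * sg n)) ^ j * X ^ sg n * u) := by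
        simp only [mul_assoc]
      rw [this]
      exact mul_mem (Subsemigroup.subset_closure (X_Y_mem_T n)) ih
  exact h _

theorem list_prod_mem (l : List (F k)) (hne : l ≠ []) (hl : ∀ g ∈ l, g ∈ M k) : l.prod ∈ M k := by
  induction l with
  | nil => exact absurd rfl hne
  | cons a l ih =>
    by_cases h : l = []
    · subst h
      simpa using hl
    · rw [List.prod_cons]
      exact mul_mem (hl a (by simp)) (ih h fun g hg => hl g (by simp [hg]))

/-- second step -/
theorem step2 (c : List (Lt k × ℤ)) (hok : Ok c) (hne : c ≠ []) (hn : ∀ p ∈ c, p.2 ≠ 0) :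
    ∃ m ∈ M k, IsConj (phi2 (val c)) m := by
  let u : Lt k × ℤ → F k := fun p => lett p.1 * Lf p.2
  let v : Lt k × ℤ → F k := fun p => Mid p.2 * Rf p.2
  have h1 : phi2 (val c) = (c.map fun p => u p * v p).prod := by
    rw [val, map_list_prod, List.map_map]
    congr 1
    apply List.map_congr_left
    intro p hp
    simp only [Function.comp_apply, map_mul, map_zpow, phi2_X, u, v]
    rw [phi2_lett _ (hok p hp), pow_split _ (hn p hp), mul_assoc]
  refine ⟨((cp c).map fun pq => v pq.1 * u pq.2).prod, ?_, ?_⟩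
  · apply list_prod_mem
    · intro h
      rw [List.map_eq_nil_iff] at h
      have : (cp c).length = c.length := by simp [cp]
      rw [h] at this
      exact hne (List.length_eq_zero_iff.1 this.symm)
    · intro g hg
      rw [List.mem_map] at hg
      obtain ⟨⟨p, q⟩, hpq, rfl⟩ := hg
      have hq : q ∈ c := by
        have := (List.of_mem_zip hpq).2
        simpa using this
      simp only [u, v]
      have h3 := mem_U q.1 (hok q hq) (Rf p.2) (Lf q.2)
        (by unfold Rf; split <;> simp) (by unfold Lf; split <;> simp)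
      have h4 : Mid p.2 * Rf p.2 * (lett q.1 * Lf q.2) =
          Mid p.2 * (Rf p.2 * lett q.1 * Lf q.2) := by simp only [mul_assoc]
      rw [h4]
      apply mid_mul_mem
      exact ⟨sg p.2, _, by unfold sg; split <;> simp, h3.1, h3.2.1, h3.2.2, rfl⟩
  · rw [h1]
    exact prod_regroup u v c

/-- first step -/
theorem step1 (c : List (Lt k × ℤ)) (hok : Ok c) (hne : c ≠ [])
    (hnd : ∀ pq ∈ cp c, ¬ (pq.1.2 = 0 ∧ pq.2.1 = bar pq.1.1)) :
    ∃ (Q : Lt k → ℤ) (d : List (Lt k × ℤ)), Ok d ∧ d ≠ [] ∧ (∀ p ∈ d, p.2 ≠ 0) ∧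
      IsConj (phi1 Q (val c)) (val d) := by
  -- a bound for the exponents
  obtain ⟨E, hE⟩ : ∃ E : ℤ, ∀ p ∈ c, |p.2| < E := by
    clear hok hne hnd
    induction c with
    | nil => exact ⟨0, by simp⟩
    | cons p c ih =>
      obtain ⟨E, hE⟩ := ih
      refine ⟨max E (|p.2| + 1), ?_⟩
      intro q hq
      rw [List.mem_cons] at hq
      rcases hq with rfl | hq
      · exact lt_max_of_lt_right (by omega)
      · exact lt_max_of_lt_left (hE q hq)
  let Q : Lt k → ℤ := fun a => E * (2 * (a.1 : ℕ) + (if a.2 then 1 else 0))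
  have hQ : ∀ a b : Lt k, a ≠ b → E ≤ |Q a - Q b| := by
    intro a b hab
    obtain ⟨p, hp⟩ := List.exists_mem_of_ne_nil c hne
    have hE0 : 0 < E := lt_of_le_of_lt (abs_nonneg _) (hE p hp)
    have h1 : Q a - Q b = E * ((2 * ((a.1 : ℕ) : ℤ) + (if a.2 then 1 else 0)) -
        (2 * ((b.1 : ℕ) : ℤ) + (if b.2 then 1 else 0))) := by
      simp only [Q]
      ring
    rw [h1, abs_mul, abs_of_pos hE0]
    have h2 : (1 : ℤ) ≤ |(2 * ((a.1 : ℕ) : ℤ) + (if a.2 then 1 else 0)) -
        (2 * ((b.1 : ℕ) : ℤ) + (if b.2 then 1 else 0))| := by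
      rw [← zero_add (1 : ℤ), Int.add_one_le_iff]
      rw [abs_pos]
      intro h3
      apply hab
      obtain ⟨i, s⟩ := a
      obtain ⟨j, t⟩ := b
      have hs : s = t := by
        cases s <;> cases t <;> simp at h3 ⊢ <;> omega
      subst hs
      have : (i : ℕ) = (j : ℕ) := by
        simp at h3
        omega
      rw [Fin.ext this]
    nlinarith
  let u : Lt k × ℤ → F k := fun p => X ^ (-Q (bar p.1))
  let v : Lt k × ℤ → F k := fun p => lett p.1 * X ^ (Q p.1 + p.2)
  have h1 : phi1 Q (val c) = (c.map fun p => u p * v p).prod := by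
    rw [val, map_list_prod, List.map_map]
    congr 1
    apply List.map_congr_left
    intro p hp
    simp only [Function.comp_apply, map_mul, map_zpow, phi1_X, u, v]
    rw [phi1_lett _ _ (hok p hp), zpow_add]
    simp only [mul_assoc]
  refine ⟨Q, (cp c).map fun pq => (pq.1.1, Q pq.1.1 + pq.1.2 - Q (bar pq.2.1)), ?_, ?_, ?_, ?_⟩
  · intro p hp
    rw [List.mem_map] at hp
    obtain ⟨⟨p, q⟩, hpq, rfl⟩ := hp
    exact hok p (List.of_mem_zip hpq).1
  · intro h
    rw [List.map_eq_nil_iff] at h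
    have : (cp c).length = c.length := by simp [cp]
    rw [h] at this
    exact hne (List.length_eq_zero_iff.1 this.symm)
  · intro p hp
    rw [List.mem_map] at hp
    obtain ⟨⟨p, q⟩, hpq, rfl⟩ := hp
    have h2 := hE p (List.of_mem_zip hpq).1
    simp only
    intro h3
    by_cases h4 : p.1 = bar q.1
    · rw [h4] at h3
      exact hnd _ hpq ⟨by simp only; omega, by simp [h4]⟩
    · have h5 := hQ _ _ h4
      have h6 : Q p.1 - Q (bar q.1) = - p.2 := by omega
      rw [h6, abs_neg] at h5
      omega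
  · rw [h1]
    refine (prod_regroup u v c).trans ?_
    rw [val, List.map_map]
    have : (cp c).map (fun pq => v pq.1 * u pq.2) = (cp c).map ((fun p => lett p.1 * X ^ p.2) ∘
        fun pq => (pq.1.1, Q pq.1.1 + pq.1.2 - Q (bar pq.2.1))) := by
      apply List.map_congr_left
      intro pq _
      simp only [Function.comp_apply, u, v]
      rw [mul_assoc, ← zpow_add, ← sub_eq_add_neg]
    rw [this]

theorem main_alg (w : F k) (hw : w ≠ 1) : ∃ (φ : F k ≃* F k) (m : F k), m ∈ M k ∧ w = φ m := by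
  have hkey : ∃ (ψ : F k ≃* F k) (m : F k), m ∈ M k ∧ IsConj (ψ w) m := by
    by_cases h : ∃ e : ℤ, IsConj w (X ^ e)
    · obtain ⟨e, he⟩ := h
      have he0 : e ≠ 0 := by
        rintro rfl
        rw [zpow_zero, isConj_one_left] at he
        exact hw he
      refine ⟨phi2, (X ^ sg e * Y ^ (2 * sg e)) ^ (e.natAbs), ?_, ?_⟩
      · obtain ⟨j, hj⟩ : ∃ j, e.natAbs = j + 1 := ⟨e.natAbs - 1, by omega⟩
        rw [hj]
        clear hj
        induction j with
        | zero =>
          rw [zero_add, pow_one]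
          exact Subsemigroup.subset_closure (X_Y_mem_T e)
        | succ j ih =>
          rw [pow_succ]
          exact mul_mem ih (Subsemigroup.subset_closure (X_Y_mem_T e))
      · have h1 : IsConj (phi2 w) (phi2 (X ^ e)) := phi2.toMonoidHom.map_isConj he
        refine h1.trans ?_
        rw [map_zpow, phi2_X, pow_split e he0]
        have h2 := isConj_swap (Lf e : F k) (Mid e * Rf e)
        refine h2.trans ?_
        have h3 : Mid e * Rf e * Lf e = (X ^ sg e * Y ^ (2 * sg e) : F k) ^ e.natAbs := by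
          obtain ⟨j, hj⟩ : ∃ j, e.natAbs = j + 1 := ⟨e.natAbs - 1, by omega⟩
          rw [Mid, hj, Nat.add_sub_cancel, pow_succ, mul_assoc, mul_assoc]
          congr 2
          unfold Rf Lf sg
          split
          · simp
          · simp
        rw [h3]
    · push Not at h
      obtain ⟨c, hc, hne, hconj, hmin⟩ := exists_min w h
      have hnd := cp_nondeg w c hc hconj hmin
      obtain ⟨Q, d, hd, hdne, hdn, hdc⟩ := step1 c hc hne hnd
      obtain ⟨m, hm, hmc⟩ := step2 d hd hdne hdn
      refine ⟨(phi1 Q).trans phi2, m, hm, ?_⟩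
      have h1 : IsConj (phi1 Q w) (val d) := ((phi1 Q).toMonoidHom.map_isConj hconj).trans hdc
      exact (phi2.toMonoidHom.map_isConj h1).trans hmc
  obtain ⟨ψ, m, hm, hcj⟩ := hkey
  obtain ⟨g, hg⟩ := isConj_iff.1 hcj
  refine ⟨(MulAut.conj g⁻¹ : F k ≃* F k).trans ψ.symm, m, hm, ?_⟩
  rw [MulEquiv.trans_apply, MulEquiv.eq_symm_apply, MulAut.conj_apply, ← hg]
  group

end Q27.AutDense
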