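import Pool.Agent.Q27.AutDense.Alg2

/-! Counting words. -/

namespace Q27.AutDense

open FreeGroup (of toWord IsReduced isReduced_toWord mk_toWord reduce)

variable {k : ℕ}

/-- adjacency of letters in reduced words -/
def nb (a b : Lt k) : Prop := a.1 = b.1 → a.2 = b.2

instance : DecidableRel (nb (k := k)) := fun a b => by unfold nb; infer_instance

/-- adjacency of letters in reduced words that never use the first generator twice in a row -/
def rel (a b : Lt k) : Prop := nb a b ∧ ¬ (a.1 = 0 ∧ b.1 = 0)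

instance : DecidableRel (rel (k := k)) := fun a b => by unfold rel; infer_instance

/-- the elements whose reduced word starts with the first generator or its inverse, ends with
another letter, and never uses the first generator twice in a row -/
def Good (g : F k) : Prop :=
  (∃ a ∈ (toWord g).head?, a.1 = 0) ∧ (∃ a ∈ (toWord g).getLast?, a.1 ≠ 0) ∧
    List.IsChain rel (toWord g)

theorem letters_of_mem_P (u : F k) (hu : u ∈ P k) : ∀ a ∈ toWord u, a.1 ≠ 0 := by
  induction hu using Subgroup.closure_induction with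
  | mem x hx =>
    obtain ⟨i, hi, rfl⟩ := hx
    intro a ha
    rw [FreeGroup.toWord_of] at ha
    simp at ha
    rw [ha]
    exact hi
  | one => intro a ha; simp at ha
  | mul x y _ _ hx hy =>
    intro a ha
    have := (FreeGroup.toWord_mul_sublist x y).subset ha
    rw [List.mem_append] at this
    rcases this with h | h
    · exact hx a h
    · exact hy a h
  | inv x _ hx =>
    intro a ha
    rw [FreeGroup.toWord_inv, FreeGroup.invRev, List.mem_reverse, List.mem_map] at ha
    obtain ⟨b, hb, rfl⟩ := ha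
    exact hx b hb

theorem isChain_rel_of (L : List (Lt k)) (h : IsReduced L) (h0 : ∀ a ∈ L, a.1 ≠ 0) :
    List.IsChain rel L := by
  induction L with
  | nil => exact List.isChain_nil
  | cons a L ih =>
    cases L with
    | nil => exact List.isChain_singleton a
    | cons b L =>
      rw [List.isChain_cons_cons]
      rw [FreeGroup.isReduced_cons_cons] at h
      exact ⟨⟨h.1, fun h1 => h0 a (by simp) h1.1⟩, ih h.2 fun c hc => h0 c (by simp [hc])⟩

theorem good_T (g : F k) (hg : g ∈ T k) : Good g := by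
  obtain ⟨d, u, hd, hu, hu1, -, rfl⟩ := hg
  obtain ⟨s, hs⟩ : ∃ s : Bool, (X : F k) ^ d = FreeGroup.mk [(0, s)] := by
    rcases hd with rfl | rfl
    · exact ⟨true, rfl⟩
    · exact ⟨false, rfl⟩
  have h0 := letters_of_mem_P u hu
  have hne : toWord u ≠ [] := by
    rw [ne_eq, FreeGroup.toWord_eq_nil_iff]
    exact hu1
  have hch : List.IsChain rel ((0, s) :: toWord u) := by
    have h1 := isChain_rel_of _ isReduced_toWord h0
    obtain ⟨b, L, hbL⟩ := List.exists_cons_of_ne_nil hne
    rw [hbL] at h1 h0 ⊢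
    rw [List.isChain_cons_cons]
    have hb := h0 b (by simp)
    exact ⟨⟨fun h => absurd h.symm hb, fun h => hb h.2⟩, h1⟩
  have hred : IsReduced ((0, s) :: toWord u) := hch.imp fun a b h => h.1
  have hw : toWord (X ^ d * u) = (0, s) :: toWord u := by
    have : X ^ d * u = FreeGroup.mk ((0, s) :: toWord u) := by
      rw [hs]
      conv_lhs => rw [← mk_toWord (x := u)]
      rw [FreeGroup.mul_mk]
      rfl
    rw [this, FreeGroup.toWord_mk, hred.reduce_eq]
  refine ⟨?_, ?_, ?_⟩
  · rw [hw]
    exact ⟨(0, s), by simp, rfl⟩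
  · rw [hw]
    obtain ⟨L, b, hbL⟩ := (List.eq_nil_or_concat (toWord u)).resolve_left hne
    refine ⟨b, ?_, h0 b (by rw [hbL]; simp)⟩
    rw [hbL, List.concat_eq_append]
    simp [List.getLast?_cons]
  · rw [hw]
    exact hch

theorem good_mul (g h : F k) (hg : Good g) (hh : Good h) : Good (g * h) := by
  obtain ⟨⟨a, ha, ha0⟩, ⟨b, hb, hb0⟩, hgc⟩ := hg
  obtain ⟨⟨c, hc, hc0⟩, ⟨d, hd, hd0⟩, hhc⟩ := hh
  have hch : List.IsChain rel (toWord g ++ toWord h) := by
    rw [List.isChain_append]
    refine ⟨hgc, hhc, ?_⟩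
    intro x hx y hy
    have h1 : x = b := Option.mem_unique hx hb
    have h2 : y = c := Option.mem_unique hy hc
    subst h1
    subst h2
    exact ⟨fun h => absurd (h.trans hc0) hb0, fun h => hb0 h.1⟩
  have hred : IsReduced (toWord g ++ toWord h) := hch.imp fun a b h => h.1
  have hw : toWord (g * h) = toWord g ++ toWord h := by
    rw [FreeGroup.toWord_mul, hred.reduce_eq]
  refine ⟨?_, ?_, ?_⟩
  · rw [hw]
    refine ⟨a, ?_, ha0⟩
    rw [Option.mem_def] at ha
    simp [ha]
  · rw [hw]
    refine ⟨d, ?_, hd0⟩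
    rw [Option.mem_def] at hd
    simp [hd]
  · rw [hw]
    exact hch

theorem good_M (g : F k) (hg : g ∈ M k) : Good g := by
  induction hg using Subsemigroup.closure_induction with
  | mem x hx => exact good_T x hx
  | mul x y _ _ hx hy => exact good_mul x y hx hy

/-- words of length `n` that may follow `a` -/
def V (r : Lt k → Lt k → Prop) [DecidableRel r] : ℕ → Lt k → Finset (List (Lt k))
  | 0, _ => {[]}
  | (n + 1), a => (Finset.univ.filter (r a)).biUnion fun b => (V r n b).image (List.cons b)

theorem mem_V (r : Lt k → Lt k → Prop) [DecidableRel r] : ∀ (n : ℕ) (a : Lt k) (w : List (Lt k)),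
    w ∈ V r n a ↔ w.length = n ∧ List.IsChain r (a :: w) := by
  intro n
  induction n with
  | zero =>
    intro a w
    simp only [V, Finset.mem_singleton]
    constructor
    · rintro rfl; exact ⟨rfl, List.isChain_singleton _⟩
    · rintro ⟨h, _⟩; exact List.length_eq_zero_iff.1 h
  | succ n ih =>
    intro a w
    simp only [V, Finset.mem_biUnion, Finset.mem_filter, Finset.mem_univ, true_and,
      Finset.mem_image]
    constructor
    · rintro ⟨b, hb, w', hw', rfl⟩
      obtain ⟨h1, h2⟩ := (ih b w').1 hw'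
      exact ⟨by simp [h1], List.isChain_cons_cons.2 ⟨hb, h2⟩⟩
    · rintro ⟨h1, h2⟩
      cases w with
      | nil => simp at h1
      | cons b w' =>
        obtain ⟨h3, h4⟩ := List.isChain_cons_cons.1 h2
        exact ⟨b, h3, w', (ih b w').2 ⟨by simpa using h1, h4⟩, rfl⟩

theorem card_nb (a : Lt k) : (Finset.univ.filter (nb a)).card = 2 * k + 3 := by
  have h : Finset.univ.filter (nb a) = Finset.univ.erase (a.1, !a.2) := by
    ext b
    simp only [Finset.mem_filter, Finset.mem_univ, true_and, Finset.mem_erase, and_true, nb]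
    constructor
    · intro h hb
      rw [hb] at h
      have := h rfl
      simp at this
    · intro h h1
      by_contra h2
      apply h
      ext
      · exact congrArg Fin.val h1.symm
      · revert h2; cases a.2 <;> cases b.2 <;> simp
  rw [h, Finset.card_erase_of_mem (Finset.mem_univ _), Finset.card_univ, Fintype.card_prod,
    Fintype.card_bool, Fintype.card_fin]
  omega

theorem card_V_nb (n : ℕ) : ∀ a : Lt k, (V nb n a).card = (2 * k + 3) ^ n := by
  induction n with
  | zero => intro a; simp [V]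
  | succ n ih =>
    intro a
    rw [V, Finset.card_biUnion]
    · calc ∑ b ∈ Finset.univ.filter (nb a), ((V nb n b).image (List.cons b)).card
          = ∑ b ∈ Finset.univ.filter (nb a), (2 * k + 3) ^ n := by
            apply Finset.sum_congr rfl
            intro b _
            rw [Finset.card_image_of_injective _ (List.cons_injective), ih b]
        _ = (2 * k + 3) ^ (n + 1) := by
            rw [Finset.sum_const, card_nb, smul_eq_mul, pow_succ, mul_comm]
    · intro b _ c _ hbc
      rw [Function.onFun, Finset.disjoint_left]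
      intro w h1 h2
      rw [Finset.mem_image] at h1 h2
      obtain ⟨w1, _, rfl⟩ := h1
      obtain ⟨w2, _, h3⟩ := h2
      simp only [List.cons.injEq] at h3
      exact hbc h3.1.symm

/-- the pairs of letters that may follow `a` -/
def pairs (a : Lt k) : Finset (Lt k × Lt k) :=
  Finset.univ.filter fun p => rel a p.1 ∧ rel p.1 p.2

theorem card_pairs (a : Lt k) : (pairs a).card ≤ (2 * k + 3) ^ 2 - 1 := by
  let A : Finset (Lt k × Lt k) := Finset.univ.filter fun p => nb a p.1 ∧ nb p.1 p.2
  have hA : A.card = (2 * k + 3) ^ 2 := by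
    have : A = (Finset.univ.filter (nb a)).biUnion fun b =>
        (Finset.univ.filter (nb b)).image (Prod.mk b) := by
      ext ⟨b, c⟩
      simp only [A, Finset.mem_filter, Finset.mem_univ, true_and, Finset.mem_biUnion,
        Finset.mem_image, Prod.mk.injEq]
      constructor
      · rintro ⟨h1, h2⟩
        exact ⟨b, h1, c, h2, rfl, rfl⟩
      · rintro ⟨b', h1, c', h2, rfl, rfl⟩
        exact ⟨h1, h2⟩
    rw [this, Finset.card_biUnion]
    · calc ∑ b ∈ Finset.univ.filter (nb a), ((Finset.univ.filter (nb b)).image (Prod.mk b)).card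
          = ∑ b ∈ Finset.univ.filter (nb a), (2 * k + 3) := by
            apply Finset.sum_congr rfl
            intro b _
            rw [Finset.card_image_of_injective _ (Prod.mk_right_injective b), card_nb]
        _ = (2 * k + 3) ^ 2 := by
            rw [Finset.sum_const, card_nb, smul_eq_mul, sq]
    · intro b _ c _ hbc
      rw [Function.onFun, Finset.disjoint_left]
      intro w h1 h2
      rw [Finset.mem_image] at h1 h2
      obtain ⟨w1, _, rfl⟩ := h1
      obtain ⟨w2, _, h3⟩ := h2
      simp only [Prod.mk.injEq] at h3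
      exact hbc h3.1.symm
  let z : Lt k := (0, if a.1 = 0 then a.2 else true)
  have hz : (z, z) ∈ A := by
    simp only [A, Finset.mem_filter, Finset.mem_univ, true_and]
    refine ⟨?_, fun _ => rfl⟩
    intro h
    have h' : a.1 = 0 := h
    simp [z, h']
  have hsub : pairs a ⊆ A.erase (z, z) := by
    intro p hp
    simp only [pairs, Finset.mem_filter, Finset.mem_univ, true_and] at hp
    rw [Finset.mem_erase]
    refine ⟨?_, ?_⟩
    · rintro rfl
      exact hp.2.2 ⟨rfl, rfl⟩
    · simp only [A, Finset.mem_filter, Finset.mem_univ, true_and]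
      exact ⟨hp.1.1, hp.2.1⟩
  have := Finset.card_le_card hsub
  rw [Finset.card_erase_of_mem hz, hA] at this
  exact this

theorem card_V_rel_le (n : ℕ) (a : Lt k) : (V rel n a).card ≤ (2 * k + 3) ^ n := by
  rw [← card_V_nb n a]
  apply Finset.card_le_card
  intro w hw
  rw [mem_V] at hw ⊢
  exact ⟨hw.1, hw.2.imp fun _ _ h => h.1⟩

theorem card_V_rel (j : ℕ) : ∀ (t : ℕ) (a : Lt k),
    (V rel (2 * j + t) a).card ≤ ((2 * k + 3) ^ 2 - 1) ^ j * (2 * k + 3) ^ t := by
  induction j with
  | zero =>
    intro t a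
    simpa using card_V_rel_le t a
  | succ j ih =>
    intro t a
    have h1 : V rel (2 * (j + 1) + t) a ⊆
        (pairs a).biUnion fun p => (V rel (2 * j + t) p.2).image
          (fun w => p.1 :: p.2 :: w) := by
      intro w hw
      have h2 : 2 * (j + 1) + t = (2 * j + t) + 1 + 1 := by ring
      rw [h2] at hw
      simp only [V, Finset.mem_biUnion, Finset.mem_filter, Finset.mem_univ, true_and,
        Finset.mem_image] at hw
      obtain ⟨b, hb, w1, ⟨c, hc, w2, hw2, rfl⟩, rfl⟩ := hw
      simp only [Finset.mem_biUnion, Finset.mem_image]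
      exact ⟨(b, c), by simp [pairs, hb, hc], w2, hw2, rfl⟩
    refine (Finset.card_le_card h1).trans ?_
    refine Finset.card_biUnion_le.trans ?_
    calc ∑ p ∈ pairs a, ((V rel (2 * j + t) p.2).image (fun w => p.1 :: p.2 :: w)).card
        ≤ ∑ p ∈ pairs a, (((2 * k + 3) ^ 2 - 1) ^ j * (2 * k + 3) ^ t) :=
          Finset.sum_le_sum fun p _ => Finset.card_image_le.trans (ih t p.2)
      _ = (pairs a).card * (((2 * k + 3) ^ 2 - 1) ^ j * (2 * k + 3) ^ t) := by
          rw [Finset.sum_const, smul_eq_mul]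
      _ ≤ ((2 * k + 3) ^ 2 - 1) * (((2 * k + 3) ^ 2 - 1) ^ j * (2 * k + 3) ^ t) :=
          Nat.mul_le_mul_right _ (card_pairs a)
      _ = ((2 * k + 3) ^ 2 - 1) ^ (j + 1) * (2 * k + 3) ^ t := by ring

theorem card_V_rel' (m n : ℕ) (hmn : m ≤ n) (a : Lt k) :
    (V rel m a).card ≤ ((2 * k + 3) ^ 2 - 1) ^ (n / 2) * (2 * k + 3) := by
  have h1 : m = 2 * (m / 2) + m % 2 := by omega
  have hq : 1 ≤ (2 * k + 3) ^ 2 - 1 := by
    have : 3 ^ 2 ≤ (2 * k + 3) ^ 2 := Nat.pow_le_pow_left (by omega) 2
    omega
  rw [h1]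
  refine (card_V_rel (m / 2) (m % 2) a).trans ?_
  apply Nat.mul_le_mul
  · exact Nat.pow_le_pow_right hq (Nat.div_le_div_right hmn)
  · calc (2 * k + 3) ^ (m % 2) ≤ (2 * k + 3) ^ 1 :=
        Nat.pow_le_pow_right (by omega) (by omega)
      _ = 2 * k + 3 := pow_one _

theorem finite_ball (n : ℕ) : {w : F k | w.norm ≤ n}.Finite := by
  have h := (List.finite_length_le (Lt k) n).preimage
    (FreeGroup.toWord_injective (α := Fin (k + 2))).injOn
  exact h

theorem ball_lower (n : ℕ) : (2 * k + 3) ^ n ≤ {w : F k | w.norm ≤ n}.ncard := by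
  rw [← card_V_nb n ((0 : Fin (k + 2)), true)]
  have h1 : ((V nb n ((0 : Fin (k + 2)), true)).image FreeGroup.mk : Finset (F k)).card =
      (V nb n ((0 : Fin (k + 2)), true)).card := by
    apply Finset.card_image_of_injOn
    intro w1 hw1 w2 hw2 h
    rw [Finset.mem_coe, mem_V] at hw1 hw2
    have r1 : IsReduced w1 := hw1.2.tail
    have r2 : IsReduced w2 := hw2.2.tail
    rw [← r1.reduce_eq, ← r2.reduce_eq, ← FreeGroup.toWord_mk, ← FreeGroup.toWord_mk, h]
  rw [← h1, ← Set.ncard_coe_finset]
  apply Set.ncard_le_ncard _ (finite_ball n)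
  intro g hg
  rw [Finset.mem_coe, Finset.mem_image] at hg
  obtain ⟨w, hw, rfl⟩ := hg
  rw [mem_V] at hw
  rw [Set.mem_ofPred_eq, ← hw.1]
  exact FreeGroup.norm_mk_le

theorem M_upper (n : ℕ) : {w : F k | w ∈ M k ∧ w.norm ≤ n}.ncard ≤
    n * (2 * (k + 2) * (((2 * k + 3) ^ 2 - 1) ^ (n / 2) * (2 * k + 3))) := by
  let A : Finset (List (Lt k)) := (Finset.range n).biUnion fun m =>
    (Finset.univ : Finset (Lt k)).biUnion fun a => (V rel m a).image (List.cons a)
  have hA : A.card ≤ n * (2 * (k + 2) * (((2 * k + 3) ^ 2 - 1) ^ (n / 2) * (2 * k + 3))) := by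
    refine Finset.card_biUnion_le.trans ?_
    calc ∑ m ∈ Finset.range n, ((Finset.univ : Finset (Lt k)).biUnion fun a =>
          (V rel m a).image (List.cons a)).card
        ≤ ∑ m ∈ Finset.range n,
          (2 * (k + 2) * (((2 * k + 3) ^ 2 - 1) ^ (n / 2) * (2 * k + 3))) := by
          apply Finset.sum_le_sum
          intro m hm
          have hm' := Finset.mem_range.1 hm
          refine Finset.card_biUnion_le.trans ?_
          calc ∑ a : Lt k, ((V rel m a).image (List.cons a)).card
              ≤ ∑ a : Lt k, (((2 * k + 3) ^ 2 - 1) ^ (n / 2) * (2 * k + 3)) :=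
                Finset.sum_le_sum fun a _ =>
                  Finset.card_image_le.trans (card_V_rel' m n hm'.le a)
            _ = 2 * (k + 2) * (((2 * k + 3) ^ 2 - 1) ^ (n / 2) * (2 * k + 3)) := by
                rw [Finset.sum_const, Finset.card_univ, Fintype.card_prod, Fintype.card_bool,
                  Fintype.card_fin, smul_eq_mul, mul_comm (k + 2) 2]
      _ = _ := by rw [Finset.sum_const, Finset.card_range, smul_eq_mul]
  refine le_trans ?_ hA
  rw [← Set.ncard_coe_finset]
  apply Set.ncard_le_ncard_of_injOn toWord _ (FreeGroup.toWord_injective.injOn)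
    (Finset.finite_toSet _)
  rintro g ⟨hg, hn⟩
  obtain ⟨⟨a, ha, ha0⟩, -, hch⟩ := good_M g hg
  simp only [A, Finset.coe_biUnion, Set.mem_iUnion, Finset.mem_coe, Finset.mem_range,
    Finset.coe_image, Set.mem_image, Finset.mem_univ, exists_prop, true_and]
  cases hw : toWord g with
  | nil => rw [hw] at ha; simp at ha
  | cons b L =>
    have hlen : (toWord g).length ≤ n := hn
    rw [hw] at hlen hch
    simp at hlen
    exact ⟨L.length, hlen, b, L, (mem_V rel _ _ _).2 ⟨rfl, hch⟩, rfl⟩

open Filter Topology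

theorem lim_aux (k : ℕ) : Tendsto (fun n : ℕ => (n : ℝ) * (2 * (k + 2) *
    ((((2 * k + 3) ^ 2 - 1) ^ (n / 2)) * (2 * k + 3))) / (2 * k + 3) ^ n) atTop (𝓝 0) := by
  set q : ℝ := 2 * k + 3 with hq
  have hq3 : 3 ≤ q := by
    rw [hq]
    have : (0 : ℝ) ≤ k := Nat.cast_nonneg k
    linarith
  set θ : ℝ := (q ^ 2 - 1) / q ^ 2 with hθ
  have hθ0 : 0 ≤ θ := by
    apply div_nonneg
    · nlinarith
    · positivity
  have hθ1 : θ < 1 := by
    rw [hθ, div_lt_one (by positivity)]
    linarith
  have h1 : Tendsto (fun j : ℕ => (2 * (k + 2) * q) * (2 * ((j : ℝ) * θ ^ j) + θ ^ j)) atTop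
      (𝓝 ((2 * (k + 2) * q) * (2 * 0 + 0))) := by
    apply Tendsto.const_mul
    apply Tendsto.add
    · apply Tendsto.const_mul
      exact tendsto_self_mul_const_pow_of_lt_one hθ0 hθ1
    · exact tendsto_pow_atTop_nhds_zero_of_lt_one hθ0 hθ1
  have h2 := h1.comp (Nat.tendsto_div_const_atTop (n := 2) (by norm_num))
  rw [mul_zero, add_zero, mul_zero] at h2
  refine squeeze_zero ?_ ?_ h2
  · intro n
    apply div_nonneg _ (by positivity)
    apply mul_nonneg (Nat.cast_nonneg n)
    apply mul_nonneg (by positivity)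
    apply mul_nonneg _ (by linarith)
    apply pow_nonneg
    nlinarith
  · intro n
    simp only [Function.comp_apply]
    have h3 : (n : ℝ) ≤ 2 * ((n / 2 : ℕ) : ℝ) + 1 := by
      have : n ≤ 2 * (n / 2) + 1 := by omega
      exact_mod_cast this
    have h4 : (q ^ 2) ^ (n / 2) ≤ q ^ n := by
      rw [← pow_mul]
      exact pow_le_pow_right₀ (by linarith) (by omega)
    have h5 : (q ^ 2 - 1) ^ (n / 2) / q ^ n ≤ θ ^ (n / 2) := by
      rw [hθ, div_pow]
      apply div_le_div_of_nonneg_left _ (by positivity) h4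
      apply pow_nonneg
      nlinarith
    have h6 : 0 ≤ (q ^ 2 - 1) ^ (n / 2) / q ^ n := by
      apply div_nonneg _ (by positivity)
      apply pow_nonneg
      nlinarith
    calc (n : ℝ) * (2 * (k + 2) * ((q ^ 2 - 1) ^ (n / 2) * q)) / q ^ n
        = (2 * (k + 2) * q) * ((n : ℝ) * ((q ^ 2 - 1) ^ (n / 2) / q ^ n)) := by
          field_simp
      _ ≤ (2 * (k + 2) * q) * ((2 * ((n / 2 : ℕ) : ℝ) + 1) * θ ^ (n / 2)) := by
          apply mul_le_mul_of_nonneg_left _ (by positivity)
          exact mul_le_mul h3 h5 h6 (by positivity)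
      _ = _ := by ring

end Q27.AutDense
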